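import Mathlib
import Pool.Agent.H196R3.LId

/-!
# Lehmer's problem and rational linear relations between the roots

Let `f` be an irreducible integer polynomial of degree `n`.  Let `S` be a finite set of `k` nonzero
complex numbers such that every `x` in `S` is a product of at most `D x` numbers each of which is a
root of `f` or the inverse of a root of `f` (different roots may occur), and such that no quotient
of two distinct members of `S` is a root of unity.  Let `r` be the dimension of the rational vector
space spanned by `S`.  Then, with an absolute constant `c > 0`,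

  `M(f) ≥ min (2, exp (c n (k - r) / (k (∑ x ∈ S, D x) (log 2k) ^ 4)))`.

Special cases.
* If `k` roots of `f`, no quotient of which is a root of unity, satisfy a rational linear relation,
  then `M(f) ≥ min (2, exp (c n / (k ^ 2 (log 2k) ^ 4)))`.
* If all roots of `f` span a rational vector space of dimension `r ≤ n / 2` and no quotient of two
  distinct roots is a root of unity (take `2r` roots), then
  `M(f) ≥ min (2, exp (c n / (4 r (log 4r) ^ 4)))`: Lehmer's inequality holds for `r ≤ n / (log n) ^ 4`.
  For instance if the roots of `f` are the sums `β + β'` of two conjugates of an algebraic number.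
* If `f` divides `∑ c_j X ^ (d_j)` with `k` terms: take the powers `z ^ (d_j)` of a root `z`.

Method: the Gram matrix of the vectors of normalized conjugates of the members of `S` has `k - r`
small directions, so its off-diagonal part has (normalized) Hilbert-Schmidt norm at least of order
`√(k - r)`.  The entries of the off-diagonal part are means of normalized conjugates of quotients
`x / y`; they are small by quantitative equidistribution (an energy inequality) if the degree of
`x / y` is large, and by Dobrowolski's theorem the height of `x / y` is large otherwise.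
-/

set_option autoImplicit false

open Polynomial Module Finset

namespace Pool.Agent.Results.MP_7ab245_nt.LinearRelations

open Pool.Agent.H388SL Pool.Agent.H196R3.LI

/-- reduction to monic polynomials with constant term `± 1` -/
lemma reduction {f : ℤ[X]} (hf : Irreducible f) :
    2 ≤ MM f ∨ f.coeff 0 = 0 ∨
      ∃ p : ℤ[X], Irreducible p ∧ p.Monic ∧ |p.coeff 0| = 1 ∧ MM p = MM f ∧
        p.natDegree = f.natDegree ∧ ∀ z : ℂ, aeval z p = 0 ↔ aeval z f = 0 := by
  by_cases h0 : f.coeff 0 = 0
  · exact Or.inr (Or.inl h0)
  by_cases hc : |f.coeff 0| = 1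
  · by_cases hl : |f.leadingCoeff| = 1
    · refine Or.inr (Or.inr ?_)
      rcases (abs_eq (by norm_num : (0:ℤ) ≤ 1)).mp hl with h | h
      · exact ⟨f, hf, h, hc, rfl, rfl, fun z => Iff.rfl⟩
      · refine ⟨-f, by simpa using (irreducible_units_mul (-1 : ℤ[X]ˣ)).mpr hf, ?_, ?_, MM_neg f,
          natDegree_neg f, ?_⟩
        · rw [Monic, leadingCoeff_neg, h]; norm_num
        · rw [coeff_neg, abs_neg]; exact hc
        · intro z
          rw [map_neg, neg_eq_zero]
    · left
      have h1 : 1 ≤ |f.leadingCoeff| := Int.one_le_abs (leadingCoeff_ne_zero.mpr hf.ne_zero)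
      have h2 : 2 ≤ |f.leadingCoeff| := by omega
      have h3 := leadingCoeff_le_MM f
      have h4 : (2:ℝ) ≤ |(f.leadingCoeff : ℝ)| := by exact_mod_cast h2
      linarith
  · left
    have h1 : 1 ≤ |f.coeff 0| := Int.one_le_abs h0
    have h2 : 2 ≤ |f.coeff 0| := by omega
    have h3 := coeff_zero_le_MM f
    have h4 : (2:ℝ) ≤ |(f.coeff 0 : ℝ)| := by exact_mod_cast h2
    linarith

theorem result : ∃ c : ℝ, 0 < c ∧ ∀ f : ℤ[X], Irreducible f → ∀ (S : Finset ℂ) (D : ℂ → ℕ),
    (∀ x ∈ S, x ≠ 0 ∧ ∃ l : List ℂ, l.length ≤ D x ∧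
      (∀ z ∈ l, aeval z f = 0 ∨ aeval z⁻¹ f = 0) ∧ x = l.prod) →
    (∀ x ∈ S, ∀ y ∈ S, x ≠ y → ∀ m : ℕ, 0 < m → x ^ m ≠ y ^ m) →
    min 2 (Real.exp (c * f.natDegree *
        ((S.card : ℝ) - finrank ℚ (Submodule.span ℚ (S : Set ℂ))) /
          (S.card * (∑ x ∈ S, (D x : ℝ)) * (Real.log (2 * S.card)) ^ 4))) ≤
      (f.map (Int.castRingHom ℂ)).mahlerMeasure := by
  classical
  obtain ⟨c2, hc2, h2⟩ := units_rank
  refine ⟨c2 / 2, by positivity, ?_⟩
  intro f hf S D hS htor
  have hMf : (f.map (Int.castRingHom ℂ)).mahlerMeasure = MM f := rfl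
  rw [hMf]
  rcases reduction hf with h | h | ⟨p, hp, hm, hp0, hpM, hpn, hpr⟩
  · exact (min_le_left _ _).trans h
  · -- `f = ± X`
    have hX : X ∣ f := Polynomial.X_dvd_iff.mpr h
    have hass : Associated X f := irreducible_X.associated_of_dvd hf hX
    have hz : ∀ z : ℂ, aeval z f = 0 → z = 0 := by
      intro z hz
      obtain ⟨w, hw⟩ := hass.symm.dvd
      have h3 := congrArg (aeval z) hw
      rw [map_mul, hz, zero_mul, aeval_X] at h3
      exact h3
    have hone : ∀ x ∈ S, x = 1 := by
      intro x hx
      obtain ⟨hx0, l, -, hl, hxl⟩ := hS x hx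
      rcases l with _ | ⟨a, l⟩
      · simpa using hxl
      · exfalso
        apply hx0
        rw [hxl, List.prod_cons]
        rcases hl a List.mem_cons_self with h4 | h4
        · rw [hz a h4, zero_mul]
        · rw [inv_eq_zero.mp (hz _ h4), zero_mul]
    have hrank : (S.card : ℝ) - finrank ℚ (Submodule.span ℚ (S : Set ℂ)) = 0 := by
      rcases S.eq_empty_or_nonempty with he | ⟨x, hx⟩
      · rw [he]; simp
      · have hS1 : S = {1} := by
          ext w
          rw [Finset.mem_singleton]
          constructor
          · exact hone w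
          · rintro rfl
            have := hone x hx
            rw [this] at hx
            exact hx
        rw [hS1, Finset.card_singleton, Finset.coe_singleton, finrank_span_singleton one_ne_zero]
        simp
    rw [hrank, mul_zero, zero_div, Real.exp_zero]
    exact (min_le_right _ _).trans (one_le_MM hf.ne_zero)
  · have h3 := monomials (c := c2) h2 hp hm hp0 S D (by
      intro x hx
      obtain ⟨-, l, hl1, hl2, hl3⟩ := hS x hx
      refine ⟨l, hl1, ?_, hl3⟩
      intro z hz
      rw [hpr, hpr]
      exact hl2 z hz) htor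
    rw [hpn, hpM] at h3
    have hlM : 0 ≤ Real.log (MM f) := Real.log_nonneg (one_le_MM hf.ne_zero)
    refine (min_le_right _ _).trans ?_
    rw [← Real.le_log_iff_exp_le (MM_pos hf.ne_zero)]
    have hr : 0 ≤ (S.card : ℝ) - finrank ℚ (Submodule.span ℚ (S : Set ℂ)) := by
      have h4 := finrank_span_finset_le_card (R := ℚ) S
      have h5 : (finrank ℚ (Submodule.span ℚ (S : Set ℂ)) : ℝ) ≤ S.card := by exact_mod_cast h4
      linarith
    have hD : 0 ≤ ∑ x ∈ S, (D x : ℝ) := Finset.sum_nonneg fun _ _ => Nat.cast_nonneg _
    rcases (mul_nonneg (Nat.cast_nonneg S.card) hD : (0:ℝ) ≤ S.card * ∑ x ∈ S, (D x : ℝ)).lt_or_eq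
      with hpos | hzero
    swap
    · rw [← hzero, zero_mul, div_zero]
      exact hlM
    have hk : (0:ℝ) < S.card := by
      rcases (Nat.cast_nonneg S.card : (0:ℝ) ≤ S.card).lt_or_eq with h6 | h6
      · exact h6
      · rw [← h6, zero_mul] at hpos
        exact absurd hpos (lt_irrefl _)
    have hk1 : (1:ℝ) ≤ S.card := by
      have : 0 < S.card := by exact_mod_cast hk
      exact_mod_cast this
    have hlog : 0 < Real.log (2 * S.card) := Real.log_pos (by linarith)
    rw [div_le_iff₀ (by positivity)] at h3 ⊢
    calc c2 / 2 * f.natDegree * ((S.card : ℝ) - finrank ℚ (Submodule.span ℚ (S : Set ℂ)))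
        = (c2 * f.natDegree * ((S.card : ℝ) - finrank ℚ (Submodule.span ℚ (S : Set ℂ)))) / 2 := by
          ring
      _ ≤ (2 * S.card * (∑ x ∈ S, (D x : ℝ)) * Real.log (MM f) * (Real.log (2 * S.card)) ^ 4) / 2 := by
          gcongr
      _ = Real.log (MM f) * (S.card * (∑ x ∈ S, (D x : ℝ)) * (Real.log (2 * S.card)) ^ 4) := by
          ring

end Pool.Agent.Results.MP_7ab245_nt.LinearRelations
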