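import Mathlib
import Pool.Agent.H389R3.LR6

/-!
# Lehmer's problem for polynomials with many zeros on rational lines through the origin

`Pool.Agent.H389R3.LR.lineRoots f q` is the number of complex zeros `z` of `f` (with multiplicity)
such that `z ^ q` is real.  For `q = 1` this is the number of real zeros.

Method: the energy inequality (all moments) for the conjugates of `α, α ^ 2, ..., α ^ k`.
-/

set_option autoImplicit false

open Polynomial

namespace Pool.Agent.Results.MP_7ab245_nt.RealRoots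

open Pool.Agent.H389R3.LR

/-- (1) Let `f` be a monic irreducible integer polynomial of degree `n` and Mahler measure
`M(f) > 1`, let `q ≥ 1`, and let `R` be the number of complex zeros of `f` whose `q`-th power is
real. Then `M(f) ≥ exp (min (R ^ 2 / n) (R ^ 4 / (n ^ 2 log (2 n))) / (4 * 10 ^ 7 * q ^ 5))`.
(2) If `f` is any irreducible integer polynomial with `M(f) > 1` and `R ^ 2 ≥ n √(log (2 n))` then
`M(f) ≥ exp (1 / (5 * 10 ^ 7 * q ^ 5))`. -/
theorem result :
    (∀ f : ℤ[X], Irreducible f → f.Monic → 1 < (f.map (Int.castRingHom ℂ)).mahlerMeasure →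
      ∀ q : ℕ, 1 ≤ q →
        Real.exp (min ((lineRoots f q : ℝ) ^ 2 / f.natDegree)
          ((lineRoots f q : ℝ) ^ 4 / ((f.natDegree : ℝ) ^ 2 * Real.log (2 * f.natDegree))) /
            (4 * 10 ^ 7 * q ^ 5)) ≤ (f.map (Int.castRingHom ℂ)).mahlerMeasure) ∧
    (∀ f : ℤ[X], Irreducible f → 1 < (f.map (Int.castRingHom ℂ)).mahlerMeasure →
      ∀ q : ℕ, 1 ≤ q →
        (f.natDegree : ℝ) * Real.sqrt (Real.log (2 * f.natDegree)) ≤ (lineRoots f q : ℝ) ^ 2 →
          Real.exp (1 / (5 * 10 ^ 7 * q ^ 5)) ≤ (f.map (Int.castRingHom ℂ)).mahlerMeasure) :=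
  ⟨fun f hf hm hM q hq => final f hf hm hM q hq,
    fun f hf hM q hq hR => lehmer_lines f hf hM q hq hR⟩

end Pool.Agent.Results.MP_7ab245_nt.RealRoots
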