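import Mathlib
import Pool.Agent.H196R3.LIg

/-!
# Lehmer's problem and short congruences between monomials in the roots

Let `f` be an irreducible integer polynomial of degree `n`.  Let `S` be a finite set of `k` nonzero
complex numbers such that every `x` in `S` is a product of at most `D x` numbers each of which is a
root of `f` or the inverse of a root of `f`, and such that no quotient of two distinct members of
`S` is a root of unity.  Let `a x` be integers, not all zero, and let `q` be a natural number with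
`2 ∑ (a x) ^ 2 ≤ q ^ 2` such that `∑ x ∈ S, a x * x` is divisible by `q` in the ring of algebraic
integers.  Then, with an absolute constant `c > 0`,

  `M(f) ≥ min (2, exp (c n / (k (∑ x ∈ S, D x) (log 2k) ^ 4)))`.

So Lehmer's inequality holds if a sum of `k ≤ q ^ 2 / 2` monomials of bounded degree in the roots is
divisible by `q` and `k ^ 2 (log 2k) ^ 4 ≤ n`; also (one root, `D = ` exponent) if `f` is not
cyclotomic and is congruent modulo `q` to a polynomial with `k` terms whose coefficients have square sum at most `q ^ 2 / 2`,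
with a bound `M(f) ≥ exp (c / (k ^ 2 (log 2k) ^ 4))` that does not depend on `q`.

Method: if the mutual heights of the members of `S` are small, then the normalized Gram matrix of
their vectors of conjugates is close to the identity, so the mean square of the conjugates of
`∑ a x * x` is close to `∑ (a x) ^ 2 ≤ q ^ 2 / 2`; but by the inequality of the arithmetic and the
geometric mean it is at least `q ^ 2` if the sum is not zero.  The zero case is a rational linear
relation.
-/

set_option autoImplicit false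

open Polynomial Module Finset

namespace Pool.Agent.Results.MP_7ab245_nt.ShortCongruences

open Pool.Agent.H388SL Pool.Agent.H196R3.LI

/-- reduction to monic polynomials with constant term `± 1` -/
lemma reduction {f : ℤ[X]} (hf : Irreducible f) :
    2 ≤ MM f ∨ f.coeff 0 = 0 ∨
      ∃ p : ℤ[X], Irreducible p ∧ p.Monic ∧ |p.coeff 0| = 1 ∧ MM p = MM f ∧
        p.natDegree = f.natDegree ∧ ∀ z : ℂ, aeval z p = 0 ↔ aeval z f = 0 := by
  by_cases h0 : f.coeff 0 = 0
  · exact Or.inr (Or.inl h0)
  by_cases hc : |f.coeff 0| = 1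
  · by_cases hl : |f.leadingCoeff| = 1
    · refine Or.inr (Or.inr ?_)
      rcases (abs_eq (by norm_num : (0:ℤ) ≤ 1)).mp hl with h | h
      · exact ⟨f, hf, h, hc, rfl, rfl, fun z => Iff.rfl⟩
      · refine ⟨-f, by simpa using (irreducible_units_mul (-1 : ℤ[X]ˣ)).mpr hf, ?_, ?_, MM_neg f,
          natDegree_neg f, ?_⟩
        · rw [Monic, leadingCoeff_neg, h]; norm_num
        · rw [coeff_neg, abs_neg]; exact hc
        · intro z
          rw [map_neg, neg_eq_zero]
    · left
      have h1 : 1 ≤ |f.leadingCoeff| := Int.one_le_abs (leadingCoeff_ne_zero.mpr hf.ne_zero)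
      have h2 : 2 ≤ |f.leadingCoeff| := by omega
      have h3 := leadingCoeff_le_MM f
      have h4 : (2:ℝ) ≤ |(f.leadingCoeff : ℝ)| := by exact_mod_cast h2
      linarith
  · left
    have h1 : 1 ≤ |f.coeff 0| := Int.one_le_abs h0
    have h2 : 2 ≤ |f.coeff 0| := by omega
    have h3 := coeff_zero_le_MM f
    have h4 : (2:ℝ) ≤ |(f.coeff 0 : ℝ)| := by exact_mod_cast h2
    linarith

theorem result : ∃ c : ℝ, 0 < c ∧ ∀ f : ℤ[X], Irreducible f → ∀ (S : Finset ℂ) (D : ℂ → ℕ),
    (∀ x ∈ S, x ≠ 0 ∧ ∃ l : List ℂ, l.length ≤ D x ∧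
      (∀ z ∈ l, aeval z f = 0 ∨ aeval z⁻¹ f = 0) ∧ x = l.prod) →
    (∀ x ∈ S, ∀ y ∈ S, x ≠ y → ∀ m : ℕ, 0 < m → x ^ m ≠ y ^ m) →
    ∀ a : ℂ → ℤ, (∃ x ∈ S, a x ≠ 0) → ∀ q : ℕ, 2 * ∑ x ∈ S, (a x) ^ 2 ≤ (q : ℤ) ^ 2 →
    ∀ v : ℂ, IsIntegral ℤ v → ∑ x ∈ S, (a x : ℂ) * x = (q : ℂ) * v →
    min 2 (Real.exp (c * f.natDegree /
          (S.card * (∑ x ∈ S, (D x : ℝ)) * (Real.log (2 * S.card)) ^ 4))) ≤
      (f.map (Int.castRingHom ℂ)).mahlerMeasure := by
  classical
  obtain ⟨c2, hc2, h2⟩ := units_cong
  refine ⟨c2 / 2, by positivity, ?_⟩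
  intro f hf S D hS htor a ha q hq v hv hw
  have hMf : (f.map (Int.castRingHom ℂ)).mahlerMeasure = MM f := rfl
  rw [hMf]
  rcases reduction hf with h | h | ⟨p, hp, hm, hp0, hpM, hpn, hpr⟩
  · exact (min_le_left _ _).trans h
  · -- `f = ± X`
    exfalso
    have hX : X ∣ f := Polynomial.X_dvd_iff.mpr h
    have hass : Associated X f := irreducible_X.associated_of_dvd hf hX
    have hz : ∀ z : ℂ, aeval z f = 0 → z = 0 := by
      intro z hz
      obtain ⟨w, hw⟩ := hass.symm.dvd
      have h3 := congrArg (aeval z) hw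
      rw [map_mul, hz, zero_mul, aeval_X] at h3
      exact h3
    have hone : ∀ x ∈ S, x = 1 := by
      intro x hx
      obtain ⟨hx0, l, -, hl, hxl⟩ := hS x hx
      rcases l with _ | ⟨b, l⟩
      · simpa using hxl
      · exfalso
        apply hx0
        rw [hxl, List.prod_cons]
        rcases hl b List.mem_cons_self with h4 | h4
        · rw [hz b h4, zero_mul]
        · rw [inv_eq_zero.mp (hz _ h4), zero_mul]
    obtain ⟨x, hx, hax⟩ := ha
    have hS1 : S = {1} := by
      ext w
      rw [Finset.mem_singleton]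
      constructor
      · exact hone w
      · rintro rfl
        have := hone x hx
        rw [this] at hx
        exact hx
    rw [hone x hx] at hax
    rw [hS1, Finset.sum_singleton] at hq hw
    rw [mul_one] at hw
    have hq0 : (q : ℤ) ≠ 0 := by
      intro h3
      rw [h3] at hq
      have : 0 < (a 1) ^ 2 := by positivity
      nlinarith
    have hqC : (q : ℂ) ≠ 0 := by exact_mod_cast hq0
    have hveq : algebraMap ℚ ℂ ((a 1 : ℚ) / (q : ℚ)) = v := by
      rw [map_div₀, map_intCast, map_natCast, hw, mul_div_cancel_left₀ v hqC]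
    have hvQ : IsIntegral ℤ ((a 1 : ℚ) / (q : ℚ)) := by
      rw [← hveq] at hv
      exact (isIntegral_algebraMap_iff (algebraMap ℚ ℂ).injective).mp hv
    obtain ⟨t, ht⟩ := IsIntegrallyClosed.isIntegral_iff.mp hvQ
    have hqQ : (q : ℚ) ≠ 0 := by exact_mod_cast hq0
    rw [eq_div_iff hqQ] at ht
    have ht2 : t * (q : ℤ) = a 1 := by
      have h3 : (t : ℚ) * (q : ℚ) = (a 1 : ℚ) := by simpa using ht
      exact_mod_cast h3
    have ht0 : t ≠ 0 := by
      rintro rfl
      rw [zero_mul] at ht2
      exact hax ht2.symm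
    have h5 : 1 ≤ t ^ 2 := by
      have := Int.one_le_abs ht0
      nlinarith [sq_abs t]
    have h6 : 0 < (q : ℤ) ^ 2 := by positivity
    rw [← ht2] at hq
    nlinarith
  · have h3 := monomials_cong (c := c2) h2 hp hm hp0 S D (by
      intro x hx
      obtain ⟨-, l, hl1, hl2, hl3⟩ := hS x hx
      refine ⟨l, hl1, ?_, hl3⟩
      intro z hz
      rw [hpr, hpr]
      exact hl2 z hz) htor a ha q hq v hv hw
    rw [hpn, hpM] at h3
    have hlM : 0 ≤ Real.log (MM f) := Real.log_nonneg (one_le_MM hf.ne_zero)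
    refine (min_le_right _ _).trans ?_
    rw [← Real.le_log_iff_exp_le (MM_pos hf.ne_zero)]
    have hD : 0 ≤ ∑ x ∈ S, (D x : ℝ) := Finset.sum_nonneg fun _ _ => Nat.cast_nonneg _
    rcases (mul_nonneg (Nat.cast_nonneg S.card) hD : (0:ℝ) ≤ S.card * ∑ x ∈ S, (D x : ℝ)).lt_or_eq
      with hpos | hzero
    swap
    · rw [← hzero, zero_mul, div_zero]
      exact hlM
    have hk : (0:ℝ) < S.card := by
      rcases (Nat.cast_nonneg S.card : (0:ℝ) ≤ S.card).lt_or_eq with h6 | h6
      · exact h6
      · rw [← h6, zero_mul] at hpos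
        exact absurd hpos (lt_irrefl _)
    have hk1 : (1:ℝ) ≤ S.card := by
      have : 0 < S.card := by exact_mod_cast hk
      exact_mod_cast this
    have hlog : 0 < Real.log (2 * S.card) := Real.log_pos (by linarith)
    rw [div_le_iff₀ (by positivity)] at h3 ⊢
    calc c2 / 2 * (f.natDegree : ℝ) = (c2 * f.natDegree) / 2 := by ring
      _ ≤ (2 * S.card * (∑ x ∈ S, (D x : ℝ)) * Real.log (MM f) * (Real.log (2 * S.card)) ^ 4) / 2 := by
          gcongr
      _ = Real.log (MM f) * (S.card * (∑ x ∈ S, (D x : ℝ)) * (Real.log (2 * S.card)) ^ 4) := by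
          ring

end Pool.Agent.Results.MP_7ab245_nt.ShortCongruences
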