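import Pool.Agent.H887R3.LW.Width

/-!
# Lehmer's problem for polynomials of bounded degree in one of the variables

For every `m` there is `μ > 1` such that every nonzero integer polynomial `F`, in any number of
variables and of any degrees in the other variables, of degree at most `m` in one variable `z_i`
and without nonunit factor free of `z_i`, has `M(F) = 1` or `M(F) ≥ μ`, and the same holds, with
the same `μ`, for all its specialisations `F(X ^ r_1, …, X ^ r_k)` to one variable such that
`r` satisfies no linear relation of height at most a bound depending on `F`.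

For instance (`k = 2`, `r = (1, N)`) for `f_0, …, f_m` in `ℤ[X]` without common nonunit factor and
all large `N` the polynomial `f_0 + f_1 X ^ N + ⋯ + f_m X ^ (m N)` has Mahler measure `1` or at
least `μ`, where `μ` depends only on `m` (see `Pool.Agent.H887R3.LW.blocks_all`).
-/

set_option autoImplicit false

namespace Pool.Agent.Results.MP_7ab245_nt.WidthGap

open Polynomial

noncomputable section

/-- The Mahler measure of an integer polynomial in one variable. -/
def mahler1 (f : ℤ[X]) : ℝ := (f.map (Int.castRingHom ℂ)).mahlerMeasure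

/-- The Mahler measure of an integer polynomial in `k` variables: the exponential of the mean of
`log |F(exp (2 π i t_1), …, exp (2 π i t_k))|`. -/
def mahler {k : ℕ} (F : MvPolynomial (Fin k) ℤ) : ℝ :=
  Real.exp (∫ t in Set.Icc (0 : Fin k → ℝ) 1,
    Real.log ‖MvPolynomial.eval
      (fun j : Fin k => Complex.exp (2 * (Real.pi : ℂ) * Complex.I * ((t j : ℝ) : ℂ)))
      (MvPolynomial.map (Int.castRingHom ℂ) F)‖)

/-- The one-variable polynomial `F(X ^ r_1, …, X ^ r_k)`. -/
def spec {k : ℕ} (r : Fin k → ℕ) (F : MvPolynomial (Fin k) ℤ) : ℤ[X] :=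
  MvPolynomial.aeval (fun j => (X : ℤ[X]) ^ (r j)) F

theorem result (m : ℕ) :
    ∃ μ : ℝ, 1 < μ ∧ ∀ (k : ℕ) (F : MvPolynomial (Fin k) ℤ) (i : Fin k),
      F ≠ 0 → F.degreeOf i ≤ m →
      (∀ Q : MvPolynomial (Fin k) ℤ, Q ∣ F → Q.degreeOf i = 0 → IsUnit Q) →
      (mahler F = 1 ∨ μ ≤ mahler F) ∧
      ∃ N₀ : ℕ, ∀ r : Fin k → ℕ,
        (∀ s : Fin k → ℤ, s ≠ 0 → (∀ j, |s j| ≤ (N₀ : ℤ)) → ∑ j, s j * (r j : ℤ) ≠ 0) →
        spec r F ≠ 0 ∧ (mahler1 (spec r F) = 1 ∨ μ ≤ mahler1 (spec r F)) :=
  Pool.Agent.H887R3.LW.width_all m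

end

end Pool.Agent.Results.MP_7ab245_nt.WidthGap
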